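import Mathlib

set_option autoImplicit false

namespace Pool.Agent.Results.MP_35fef3_co.Counter

open Finset

/-- `U` is the set of bases of a matroid. -/
def IsBases {E : Type} [DecidableEq E] (U : Finset (Finset E)) : Prop :=
  U.Nonempty ∧ ∀ A ∈ U, ∀ B ∈ U, ∀ a ∈ A \ B, ∃ b ∈ B \ A, insert b (A.erase a) ∈ U

/-- top entry of the h-vector of the complex generated by `U`. -/
def hTop {E : Type} [Fintype E] [DecidableEq E] (d : ℕ) (U : Finset (Finset E)) : ℤ :=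
  ∑ i ∈ range (d + 1), (-1) ^ (d - i) *
    (((powersetCard i (univ : Finset E)).filter fun I => ∃ B ∈ U, I ⊆ B).card : ℤ)

def bl : List (Finset (Fin 6)) := [{0,1,3}, {0,1,4}, {0,1,5}, {0,2,3}, {0,2,4}, {0,2,5}, {0,3,5}, {0,4,5}, {1,2,3}, {1,2,4}, {1,2,5}, {1,3,4}, {1,4,5}, {2,3,4}, {2,3,5}, {3,4,5}]

def b (i : ℕ) : Finset (Fin 6) := bl.getD i ∅

def cons : List (List (ℕ × ℕ × Fin 6 × List ℕ)) := [[],
  [],
  [],
  [],
  [(2,3,5,[0]),(1,3,4,[0])],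
  [(0,4,1,[3]),(1,3,1,[4]),(2,4,5,[1]),(0,4,3,[1])],
  [(0,5,3,[2]),(1,5,4,[2]),(5,0,5,[3]),(4,2,4,[5]),(3,2,3,[5]),(5,1,5,[4])],
  [(6,1,5,[0]),(6,4,5,[3])],
  [(3,7,2,[6]),(7,0,5,[1]),(4,6,2,[7]),(1,6,1,[7]),(0,7,1,[6]),(7,3,5,[4])],
  [(2,8,5,[0]),(5,8,5,[3]),(1,8,4,[0]),(4,8,4,[3]),(8,6,2,[0])],
  [(0,9,3,[1]),(5,9,5,[4]),(9,3,4,[8]),(8,4,3,[9]),(9,0,4,[8]),(2,9,5,[1]),(3,9,3,[4]),(8,1,3,[9]),(9,7,1,[4])],
  [(10,6,2,[2]),(10,1,5,[9]),(9,2,4,[10]),(10,7,1,[5]),(3,10,3,[5]),(0,10,3,[2]),(2,8,0,[10]),(4,10,4,[5]),(8,5,3,[10]),(10,3,5,[8]),(1,10,4,[2]),(0,10,0,[8]),(4,10,0,[9]),(5,9,0,[10])],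
  [(6,11,5,[0]),(11,10,4,[8]),(4,11,2,[1]),(7,11,5,[1]),(3,11,2,[0]),(11,2,4,[0])],
  [(5,12,0,[10]),(12,4,1,[7]),(2,11,0,[12]),(0,12,0,[11]),(12,8,4,[10]),(12,6,4,[2]),(7,9,0,[12]),(7,10,0,[12]),(4,12,0,[9]),(8,12,2,[11]),(10,11,2,[12]),(12,0,4,[2]),(12,5,1,[7])],
  [(13,10,3,[9]),(13,1,2,[11]),(7,13,5,[4]),(11,3,1,[13]),(13,12,3,[9]),(0,13,1,[3]),(13,0,2,[11]),(6,13,5,[3]),(1,13,1,[4]),(11,4,1,[13]),(13,5,3,[4]),(2,13,0,[10,12])],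
  [(4,14,0,[13]),(14,7,3,[5]),(6,8,0,[14]),(0,14,0,[8]),(1,14,1,[4,7]),(5,13,0,[14]),(14,2,2,[6]),(14,9,3,[10]),(6,10,0,[14]),(10,13,1,[14]),(2,14,0,[10]),(11,14,4,[8]),(14,4,3,[5]),(9,14,1,[13]),(14,0,2,[6]),(3,12,0,[8,13,14]),(5,11,0,[10,14]),(12,14,4,[10])],
  [(10,15,1,[14]),(11,7,1,[15]),(3,15,2,[6]),(15,9,3,[12]),(14,11,2,[15]),(2,15,0,[12]),(13,6,2,[15]),(0,15,1,[6]),(4,15,0,[13]),(15,5,3,[7]),(12,14,1,[15]),(8,15,2,[11]),(1,15,1,[7]),(9,15,1,[13]),(7,14,0,[15]),(15,3,5,[13]),(15,2,4,[6]),(12,13,1,[15]),(6,12,0,[15]),(15,1,5,[11]),(5,15,0,[14]),(15,8,4,[14]),(0,15,0,[11]),(4,15,2,[7]),(6,9,0,[14,15]),(6,11,0,[15]),(7,8,0,[12,15]),(7,13,0,[15]),(10,15,2,[12])]]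

def h (m : ℕ) : ℤ := ∑ i ∈ range (3 + 1), (-1) ^ (3 - i) *
    (((powersetCard i (univ : Finset (Fin 6))).filter fun I =>
      ∃ j ∈ List.range 16, m.testBit j = true ∧ I ⊆ b j).card : ℤ)

def leaf (i m : ℕ) : Bool := (cons.getD i []).any fun q =>
  m.testBit q.1 && m.testBit q.2.1 && q.2.2.2.all fun k => !m.testBit k

def go : ℕ → ℕ → ℕ → Bool
  | 0, i, m => leaf i m || h m != 5
  | f + 1, i, m => leaf i m || (go f (i + 1) m && go f (i + 1) (m + 2 ^ i))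

def mk (p : ℕ → Bool) : ℕ → ℕ
  | 0 => 0
  | n + 1 => mk p n + if p n then 2 ^ n else 0

theorem mk_lt (p : ℕ → Bool) (n : ℕ) : mk p n < 2 ^ n := by
  induction n with
  | zero => simp [mk]
  | succ n ih => rw [mk]; split_ifs <;> omega

theorem mk_bit (p : ℕ → Bool) (n j : ℕ) (h : j < n) : (mk p n).testBit j = p j := by
  induction n with
  | zero => omega
  | succ n ih =>
    rw [mk]
    rcases (Nat.lt_succ_iff.mp h).eq_or_lt with rfl | h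
    · split_ifs with e
      · rw [add_comm, Nat.testBit_two_pow_add_eq, Nat.testBit_lt_two_pow (mk_lt p j), e]; rfl
      · simp [Nat.testBit_lt_two_pow (mk_lt p j), e]
    · split_ifs with e
      · rw [add_comm, Nat.testBit_two_pow_add_gt h, ih h]
      · simpa using ih h

theorem go_spec (p : ℕ → Bool) (f : ℕ) : ∀ i, go f i (mk p i) = true →
    h (mk p (i + f)) = 5 → ∃ j, leaf j (mk p j) = true := by
  induction f with
  | zero => exact fun i h1 e => ⟨i, by simpa [go, show h (mk p i) = 5 from e] using h1⟩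
  | succ f ih =>
    intro i h1 e
    simp only [go, Bool.or_eq_true, Bool.and_eq_true] at h1
    rcases h1 with h1 | h1
    · exact ⟨i, h1⟩
    refine ih (i + 1) ?_ (by rw [← e]; congr 2; omega)
    rw [mk]
    split_ifs
    · exact h1.2
    · exact h1.1

theorem go_ok : go 16 0 0 = true := by decide +kernel

set_option synthInstance.maxSize 2000 in
theorem cons_ok : ∀ j < 17, ∀ q ∈ cons.getD j [], q.1 < j ∧ q.2.1 < j ∧
    q.2.2.1 ∈ b q.1 \ b q.2.1 ∧ ∀ y ∈ b q.2.1 \ b q.1, insert y ((b q.1).erase q.2.2.1) ∈ bl →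
      ∃ k ∈ q.2.2.2, k < j ∧ b k = insert y ((b q.1).erase q.2.2.1) := by decide +kernel

theorem result : ∃ (E : Type) (_ : Fintype E) (_ : DecidableEq E) (d : ℕ)
    (M : Finset (Finset E)), 1 ≤ d ∧ IsBases M ∧ (∀ B ∈ M, B.card = d) ∧
    (∀ x y : E, ∃ B ∈ M, x ∈ B ∧ y ∈ B) ∧ 1 ≤ hTop d M ∧
    ∀ U ⊆ M, IsBases U → hTop d U ≠ hTop d M - 1 := by
  have h6 : hTop 3 bl.toFinset = 6 := by decide +kernel
  refine ⟨Fin 6, inferInstance, inferInstance, 3, bl.toFinset, by norm_num,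
    by unfold IsBases; decide +kernel, by decide +kernel, by decide +kernel, by rw [h6]; norm_num,
    fun U hU hB e => ?_⟩
  let p : ℕ → Bool := fun i => decide (b i ∈ U)
  have h1 : h (mk p (0 + 16)) = 5 := by
    rw [show (5 : ℤ) = hTop 3 U by rw [e, h6]; rfl]
    refine sum_congr rfl fun i _ => ?_
    refine congrArg (fun s : Finset (Finset (Fin 6)) => (-1 : ℤ) ^ (3 - i) * (s.card : ℤ)) ?_
    refine filter_congr fun I _ => ?_
    constructor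
    · rintro ⟨j, hj, h1, h2⟩
      rw [mk_bit p _ _ (List.mem_range.mp hj)] at h1
      exact ⟨_, of_decide_eq_true h1, h2⟩
    · rintro ⟨B, h1, h2⟩
      obtain ⟨j, hj, rfl⟩ := (by decide +kernel : ∀ B ∈ bl.toFinset, ∃ j ∈ List.range 16, b j = B)
        B (hU h1)
      exact ⟨j, hj, by rw [mk_bit p _ _ (List.mem_range.mp hj)]; exact decide_eq_true h1, h2⟩
  obtain ⟨j, h2⟩ := go_spec p 16 0 go_ok h1
  simp only [leaf, List.any_eq_true, Bool.and_eq_true, List.all_eq_true, Bool.not_eq_true'] at h2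
  obtain ⟨q, hq, ⟨a1, a2⟩, a3⟩ := h2
  have hj : j < 17 := by
    by_contra hj
    rw [List.getD_eq_default _ _ (by simpa [cons] using hj)] at hq
    simp at hq
  obtain ⟨c1, c2, c3, c4⟩ := cons_ok j hj q hq
  rw [mk_bit p _ _ c1] at a1
  rw [mk_bit p _ _ c2] at a2
  obtain ⟨y, hy, h3⟩ := hB.2 _ (of_decide_eq_true a1) _ (of_decide_eq_true a2) _ c3
  obtain ⟨k, hk, h4, h5⟩ := c4 y hy (List.mem_toFinset.mp (hU h3))
  have := a3 k hk
  rw [mk_bit p _ _ h4] at this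
  exact of_decide_eq_false this (h5 ▸ h3)

end Pool.Agent.Results.MP_35fef3_co.Counter
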